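import Mathlib
import Pool.Agent.V1176.RRDeriv

set_option autoImplicit false

open Polynomial Pool.Agent.V1176

namespace Pool.Agent.Results.MP_424c76_an.RhombusShadow

/-- The set `Z` of all zeros of all `(d/dx)^m P^n`, `n ≥ 1`, `0 ≤ m ≤ n d`. -/
def Z (P : ℂ[X]) : Set ℂ :=
  {z | ∃ n m : ℕ, 1 ≤ n ∧ m ≤ n * P.natDegree ∧ (derivative^[m] (P ^ n)).eval z = 0}

/-- The shadow of `P`. -/
def shadow (P : ℂ[X]) : Set ℂ := closure (Z P)

/-- The roots of `P` are distinct and none of them lies in the convex hull of the others. -/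
def ConvexPosition (P : ℂ[X]) : Prop :=
  P.roots.Nodup ∧ ∀ z ∈ P.roots, z ∉ convexHull ℝ {w | w ∈ P.roots ∧ w ≠ z}

/-- The roots of `P` are the vertices of a regular `d`-gon, `d = deg P`. -/
def RegularPolygon (P : ℂ[X]) : Prop :=
  ∃ a r : ℂ, r ≠ 0 ∧ {z | z ∈ P.roots} =
    {z | ∃ k : ℕ, z = a + r * Complex.exp (2 * Real.pi * Complex.I * k / P.natDegree)}

/-- The polynomial `(x² - 1)(x² + c²)`. -/
noncomputable def rh (c : ℝ) : ℂ[X] := (X ^ 2 - 1) * (X ^ 2 + C ((c : ℂ) ^ 2))

/-- The real polynomial `(t - 1)(t + c²)`. -/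
noncomputable def hh (c : ℝ) : ℝ[X] := (X - 1) * (X + C (c ^ 2))

/-- polynomials `h(x²)` or `x h(x²)` with `h` real-rooted. -/
def Good (f : ℂ[X]) : Prop := ∃ h : ℝ[X], RR h ∧
  (f = (h.map (algebraMap ℝ ℂ)).comp (X ^ 2) ∨ f = X * (h.map (algebraMap ℝ ℂ)).comp (X ^ 2))

theorem Good.derivative {f : ℂ[X]} (hf : Good f) : Good (derivative f) := by
  obtain ⟨h, hr, rfl | rfl⟩ := hf
  · refine ⟨C 2 * Polynomial.derivative h, ?_, Or.inr ?_⟩
    · rcases hr.derivative with h1 | h1
      · left; rw [h1]; simp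
      · right
        intro z hz
        apply h1
        rw [map_mul, aeval_C] at hz
        rcases mul_eq_zero.mp hz with h2 | h2
        · simp at h2
        · exact h2
    · rw [derivative_comp, derivative_X_pow, Polynomial.map_mul, map_C, mul_comp, C_comp,
        derivative_map]
      simp
      ring
  · refine ⟨h + C 2 * X * Polynomial.derivative h, hr.add_two_X_derivative, Or.inl ?_⟩
    rw [derivative_mul, derivative_comp, derivative_X_pow, derivative_X, Polynomial.map_add,
      Polynomial.map_mul, Polynomial.map_mul, map_C, map_X, add_comp, mul_comp, mul_comp, C_comp,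
      X_comp, derivative_map]
    simp
    ring

theorem Good.iterate {f : ℂ[X]} (hf : Good f) (m : ℕ) : Good (Polynomial.derivative^[m] f) := by
  induction m with
  | zero => exact hf
  | succ m ih =>
    rw [Function.iterate_succ_apply']
    exact ih.derivative

theorem Good.root {f : ℂ[X]} (hf : Good f) (hf0 : f ≠ 0) {z : ℂ} (hz : f.eval z = 0) :
    z.re = 0 ∨ z.im = 0 := by
  obtain ⟨h, hr, hh⟩ := hf
  have h0 : h ≠ 0 := by
    rintro rfl
    rcases hh with rfl | rfl <;> simp at hf0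
  have hr' : ∀ z : ℂ, aeval z h = 0 → z.im = 0 := by
    rcases hr with h1 | h1
    · exact absurd h1 h0
    · exact h1
  have key : aeval (z ^ 2) h = 0 → z.re = 0 ∨ z.im = 0 := by
    intro h2
    have h3 := hr' _ h2
    rw [pow_two, Complex.mul_im] at h3
    have : z.re * z.im = 0 := by linarith
    exact mul_eq_zero.mp this
  rcases hh with rfl | rfl
  · apply key
    rw [eval_comp, eval_map_algebraMap] at hz
    simpa using hz
  · rw [eval_mul, eval_X, eval_comp, eval_map_algebraMap] at hz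
    rcases mul_eq_zero.mp hz with h2 | h2
    · left; simp [h2]
    · apply key; simpa using h2

theorem hh_RR (c : ℝ) (n : ℕ) : RR ((hh c) ^ n) := by
  right
  intro z hz
  rw [map_pow] at hz
  have h1 := eq_zero_of_pow_eq_zero hz
  simp only [hh, map_mul, map_sub, map_add, aeval_X, map_one, aeval_C, Complex.coe_algebraMap] at h1
  rcases mul_eq_zero.mp h1 with h2 | h2
  · have : z = 1 := by linear_combination h2
    simp [this]
  · have : z = ((-(c ^ 2) : ℝ) : ℂ) := by push_cast at h2 ⊢; linear_combination h2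
    rw [this, Complex.ofReal_im]

theorem rh_good (c : ℝ) (n : ℕ) : Good ((rh c) ^ n) := by
  refine ⟨(hh c) ^ n, hh_RR c n, Or.inl ?_⟩
  simp only [rh, hh, Polynomial.map_pow, Polynomial.map_mul, Polynomial.map_sub, Polynomial.map_add,
    map_X, Polynomial.map_one, map_C, pow_comp, mul_comp, sub_comp, add_comp, X_comp, one_comp,
    C_comp]
  congr 3
  simp

theorem rh_factor (c : ℝ) : rh c = (X - C 1) * (X - C (-1)) *
    ((X - C (c * Complex.I)) * (X - C (-(c * Complex.I)))) := by
  have h : (C ((c : ℂ) ^ 2) : ℂ[X]) = - (C (c * Complex.I) * C (c * Complex.I)) := by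
    rw [← C_mul, ← C_neg]
    congr 1
    have : Complex.I * Complex.I = -1 := Complex.I_mul_I
    linear_combination (c : ℂ) ^ 2 * this
  rw [rh, h]
  simp only [map_neg, map_one]
  ring

theorem rh_monic (c : ℝ) : (rh c).Monic := by
  rw [rh_factor]
  exact (((monic_X_sub_C _).mul (monic_X_sub_C _)).mul
    ((monic_X_sub_C _).mul (monic_X_sub_C _)))

theorem rh_roots (c : ℝ) : (rh c).roots = {1, -1, c * Complex.I, -(c * Complex.I)} := by
  have h0 : ∀ a : ℂ, (X - C a : ℂ[X]) ≠ 0 := fun a => X_sub_C_ne_zero a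
  rw [rh_factor, roots_mul, roots_mul, roots_mul, roots_X_sub_C, roots_X_sub_C, roots_X_sub_C,
    roots_X_sub_C]
  · rfl
  · exact mul_ne_zero (h0 _) (h0 _)
  · exact mul_ne_zero (h0 _) (h0 _)
  · exact mul_ne_zero (mul_ne_zero (h0 _) (h0 _)) (mul_ne_zero (h0 _) (h0 _))

theorem rh_natDegree (c : ℝ) : (rh c).natDegree = 4 := by
  rw [(IsAlgClosed.splits (rh c)).natDegree_eq_card_roots, rh_roots]
  rfl

theorem Z_subset (c : ℝ) : Z (rh c) ⊆ {z | z.re = 0 ∨ z.im = 0} := by
  rintro z ⟨n, m, hn, hm, hz⟩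
  refine ((rh_good c n).iterate m).root ?_ hz
  intro h
  have hmon : ((rh c) ^ n).Monic := (rh_monic c).pow n
  have hdeg : ((rh c) ^ n).natDegree = n * (rh c).natDegree := natDegree_pow _ _
  have h1 : m ≤ ((rh c) ^ n).natDegree := by rw [hdeg]; exact hm
  have h2 := natDegree_iterate_derivative ((rh c) ^ n) m
  have h3 : (Polynomial.derivative^[m] ((rh c) ^ n)).coeff (((rh c) ^ n).natDegree - m) = 0 := by
    rw [h]; simp
  rw [coeff_iterate_derivative, Nat.sub_add_cancel h1, hmon.coeff_natDegree] at h3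
  have h4 : ((((rh c) ^ n).natDegree.descFactorial m : ℕ) : ℂ) ≠ 0 := by
    rw [Nat.cast_ne_zero, Ne, Nat.descFactorial_eq_zero_iff_lt]
    omega
  rw [nsmul_eq_mul, mul_one] at h3
  exact h4 h3

theorem isClosed_cross : IsClosed {z : ℂ | z.re = 0 ∨ z.im = 0} :=
  (isClosed_eq Complex.continuous_re continuous_const).union
    (isClosed_eq Complex.continuous_im continuous_const)

theorem interior_cross : interior {z : ℂ | z.re = 0 ∨ z.im = 0} = ∅ := by
  rw [Set.eq_empty_iff_forall_notMem]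
  intro z hz
  obtain ⟨ε, hε, hb⟩ := Metric.isOpen_iff.mp isOpen_interior z hz
  have hsub : Metric.ball z ε ⊆ {z : ℂ | z.re = 0 ∨ z.im = 0} := hb.trans interior_subset
  -- choose a small shift avoiding both axes
  obtain ⟨t, ht0, ht1, h1, h2⟩ : ∃ t : ℝ, 0 < t ∧ t * 2 < ε ∧ z.re + t ≠ 0 ∧ z.im + t ≠ 0 := by
    by_cases ha : z.re + ε / 4 ≠ 0 ∧ z.im + ε / 4 ≠ 0
    · exact ⟨ε / 4, by positivity, by linarith, ha.1, ha.2⟩
    by_cases hb : z.re + ε / 5 ≠ 0 ∧ z.im + ε / 5 ≠ 0
    · exact ⟨ε / 5, by positivity, by linarith, hb.1, hb.2⟩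
    refine ⟨ε / 6, by positivity, by linarith, ?_, ?_⟩
    · intro h
      have hx : z.re = -(ε / 6) := by linarith
      have a1 : z.im + ε / 4 = 0 := by
        by_contra h'; exact ha ⟨by rw [hx]; linarith, h'⟩
      have a2 : z.im + ε / 5 = 0 := by
        by_contra h'; exact hb ⟨by rw [hx]; intro h''; linarith, h'⟩
      linarith
    · intro h
      have hx : z.im = -(ε / 6) := by linarith
      have a1 : z.re + ε / 4 = 0 := by
        by_contra h'; exact ha ⟨h', by rw [hx]; intro h''; linarith⟩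
      have a2 : z.re + ε / 5 = 0 := by
        by_contra h'; exact hb ⟨h', by rw [hx]; intro h''; linarith⟩
      linarith
  have hmem : z + ⟨t, t⟩ ∈ Metric.ball z ε := by
    rw [Metric.mem_ball, dist_eq_norm, add_sub_cancel_left]
    refine (Complex.norm_le_abs_re_add_abs_im _).trans_lt ?_
    simp only [abs_of_pos ht0]
    linarith
  rcases hsub hmem with h | h
  · exact h1 (by simpa using h)
  · exact h2 (by simpa using h)

theorem convexPosition (c : ℝ) (hc : 0 < c) : ConvexPosition (rh c) := by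
  unfold ConvexPosition
  rw [rh_roots]
  have hI : (c : ℂ) * Complex.I = ⟨0, c⟩ := by apply Complex.ext <;> simp
  have hI' : -((c : ℂ) * Complex.I) = ⟨0, -c⟩ := by apply Complex.ext <;> simp
  have h1 : (1 : ℂ) = ⟨1, 0⟩ := by apply Complex.ext <;> simp
  have h1' : (-1 : ℂ) = ⟨-1, 0⟩ := by apply Complex.ext <;> simp
  rw [hI', hI, h1', h1]
  constructor
  · simp only [Multiset.insert_eq_cons, Multiset.nodup_cons, Multiset.mem_cons,
      Multiset.mem_singleton, Complex.mk.injEq, Multiset.nodup_singleton, not_or, not_and]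
    refine ⟨⟨by norm_num, by norm_num, by norm_num⟩, ⟨by norm_num, by norm_num⟩, ?_, trivial⟩
    intro _ h; linarith
  · intro z hz hmem
    -- separate `z` from the others by a half plane
    have sep : ∀ (L : ℂ →ₗ[ℝ] ℝ) , 0 < L z →
        (∀ w ∈ ({⟨1, 0⟩, ⟨-1, 0⟩, ⟨0, c⟩, ⟨0, -c⟩} : Multiset ℂ), w ≠ z → L w ≤ 0) → False := by
      intro L hz0 hw
      have hconv : Convex ℝ {w : ℂ | L w ≤ 0} := convex_halfSpace_le L.isLinear 0
      have hsub : {w | w ∈ ({⟨1, 0⟩, ⟨-1, 0⟩, ⟨0, c⟩, ⟨0, -c⟩} : Multiset ℂ) ∧ w ≠ z} ⊆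
          {w : ℂ | L w ≤ 0} := fun w hw' => hw w hw'.1 hw'.2
      have := convexHull_min hsub hconv hmem
      exact absurd this (not_le.mpr hz0)
    simp only [Multiset.insert_eq_cons, Multiset.mem_cons, Multiset.mem_singleton] at hz sep
    rcases hz with rfl | rfl | rfl | rfl
    · refine sep Complex.reLm (by simp) ?_
      rintro w (rfl | rfl | rfl | rfl) hw <;> simp at hw ⊢
    · refine sep (-Complex.reLm) (by simp) ?_
      rintro w (rfl | rfl | rfl | rfl) hw <;> simp at hw ⊢
    · refine sep Complex.imLm (by simpa using hc) ?_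
      rintro w (rfl | rfl | rfl | rfl) hw <;> simp at hw ⊢
      exact hc.le
    · refine sep (-Complex.imLm) (by simpa using hc) ?_
      rintro w (rfl | rfl | rfl | rfl) hw <;> simp at hw ⊢
      exact hc.le

theorem not_regular (c : ℝ) (hc : 0 < c) (hc1 : c ≠ 1) : ¬ RegularPolygon (rh c) := by
  rintro ⟨a, r, hr, h⟩
  rw [rh_natDegree, rh_roots] at h
  have key : ∀ z ∈ ({1, -1, c * Complex.I, -(c * Complex.I)} : Multiset ℂ), (z - a) ^ 4 = r ^ 4 := by
    intro z hz
    have hz' : z ∈ {z : ℂ | z ∈ ({1, -1, c * Complex.I, -(c * Complex.I)} : Multiset ℂ)} := hz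
    rw [h] at hz'
    obtain ⟨k, rfl⟩ := hz'
    rw [add_sub_cancel_left, mul_pow, ← Complex.exp_nat_mul]
    have : ((4 : ℕ) : ℂ) * (2 * Real.pi * Complex.I * k / (4 : ℕ)) =
        (k : ℕ) * (2 * Real.pi * Complex.I) := by
      push_cast; ring
    rw [this, Complex.exp_nat_mul_two_pi_mul_I, mul_one]
  have k1 := key 1 (by simp)
  have k2 := key (-1) (by simp)
  have k3 := key (c * Complex.I) (by simp)
  have k4 := key (-(c * Complex.I)) (by simp)
  have hI : Complex.I ^ 2 = -1 := Complex.I_sq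
  have hI3 : Complex.I ^ 3 = -Complex.I := by rw [pow_succ, hI]; ring
  have hI4 : Complex.I ^ 4 = 1 := by rw [show 4 = 2 * 2 by norm_num, pow_mul, hI]; norm_num
  have e1 : a * (1 + a ^ 2) = 0 := by linear_combination (-1 / 8 : ℂ) * (k1 - k2)
  have e2 : (c : ℂ) * (a * (a ^ 2 - c ^ 2)) = 0 := by
    have h5 : (c : ℂ) * Complex.I * (a * (a ^ 2 - c ^ 2)) = 0 := by
      linear_combination (-1 / 8 : ℂ) * (k3 - k4) - (c : ℂ) ^ 3 * a * hI3
    have h6 : Complex.I * ((c : ℂ) * (a * (a ^ 2 - c ^ 2))) = 0 := by linear_combination h5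
    exact (mul_eq_zero.mp h6).resolve_left Complex.I_ne_zero
  have hc0 : (c : ℂ) ≠ 0 := by exact_mod_cast hc.ne'
  have e3 : a * (a ^ 2 - c ^ 2) = 0 := (mul_eq_zero.mp e2).resolve_left hc0
  have ha : a = 0 := by
    by_contra ha
    have f1 := (mul_eq_zero.mp e1).resolve_left ha
    have f2 := (mul_eq_zero.mp e3).resolve_left ha
    have f3 : ((1 + c ^ 2 : ℝ) : ℂ) = 0 := by push_cast; linear_combination f1 - f2
    have f4 : 1 + c ^ 2 = 0 := by exact_mod_cast f3
    nlinarith
  rw [ha] at k1 k3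
  have g : ((c ^ 4 : ℝ) : ℂ) = ((1 : ℝ) : ℂ) := by
    push_cast
    linear_combination k3 - k1 - (c : ℂ) ^ 4 * hI4
  have g' : c ^ 4 = 1 := by exact_mod_cast g
  have : (c - 1) * ((c + 1) * (c ^ 2 + 1)) = 0 := by linear_combination g'
  rcases mul_eq_zero.mp this with h | h
  · exact hc1 (by linarith)
  · have : 0 < (c + 1) * (c ^ 2 + 1) := by positivity
    exact absurd h this.ne'

/-- For every `c > 0`, `c ≠ 1`, the polynomial `P = (x² - 1)(x² + c²)` has degree `4`, its roots are
in convex position and do not form a regular polygon, and its shadow is contained in the union of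
the two axes and has empty interior; in particular it is not the closure of a nonempty open set. -/
theorem result : ∀ c : ℝ, 0 < c → c ≠ 1 → (rh c).natDegree = 4 ∧ ConvexPosition (rh c) ∧
    ¬ RegularPolygon (rh c) ∧ shadow (rh c) ⊆ {z | z.re = 0 ∨ z.im = 0} ∧
    interior (shadow (rh c)) = ∅ ∧
    ∀ U : Set ℂ, IsOpen U → U.Nonempty → closure U ≠ shadow (rh c) := by
  intro c hc hc1
  have hsub : shadow (rh c) ⊆ {z | z.re = 0 ∨ z.im = 0} := closure_minimal (Z_subset c) isClosed_cross
  have hint : interior (shadow (rh c)) = ∅ := by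
    rw [← Set.subset_empty_iff, ← interior_cross]
    exact interior_mono hsub
  refine ⟨rh_natDegree c, convexPosition c hc, not_regular c hc hc1, hsub, hint, ?_⟩
  intro U hU hne heq
  have : U ⊆ interior (shadow (rh c)) := by
    apply interior_maximal _ hU
    rw [← heq]
    exact subset_closure
  rw [hint] at this
  exact hne.ne_empty (Set.subset_empty_iff.mp this)

end Pool.Agent.Results.MP_424c76_an.RhombusShadow
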